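import Mathlib
import Pool.Agent.Y90.Bal1
import Pool.Agent.Y4.P.Jobs

/-!
# Transfer of projectors, ranks and traces from a factor
-/

set_option linter.unusedSectionVars false

namespace Pool.Agent.Y977.P

open Matrix Module Pool.Agent.Y90 Pool.Agent.W437.HC Pool.Agent.W437.HD
  Pool.Agent.TH504.CB Pool.Agent.Y4.P
open Pool.Agent.W548.Odd hiding cv
open Pool.Agent.W437.HP (cK cK_mul cK_one)

noncomputable section

variable {G a : ℕ} {Z : Matrix (Fin G) (Fin G) ℂ} {Z' : Matrix (Fin a) (Fin a) ℂ}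
  {E : Matrix (Fin G ⊕ Fin G) (Fin a ⊕ Fin a) ℚ} {F : Matrix (Fin a ⊕ Fin a) (Fin G ⊕ Fin G) ℚ}
  {U : Submodule ℂ (Fin G ⊕ Fin G → ℂ)}

theorem map_three (σ : ℂ ≃+* ℂ) (M : Matrix (Fin a ⊕ Fin a) (Fin a ⊕ Fin a) ℂ) :
    (cK ℂ E * M * cK ℂ F).map σ = cK ℂ E * M.map σ * cK ℂ F := by
  rw [Matrix.map_mul, Matrix.map_mul, cK_aut, cK_aut]

theorem app_three (σ : ℂ ≃+* ℂ) (M : Matrix (Fin a ⊕ Fin a) (Fin a ⊕ Fin a) ℂ)
    (i j : Fin G ⊕ Fin G) :
    σ ((cK ℂ E * M * cK ℂ F) i j) = (cK ℂ E * M.map σ * cK ℂ F) i j := by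
  rw [← map_three]
  rfl

theorem pd_of_hasPr (hf : Fac Z Z' E F) (hi : ∀ u ∈ U, ml F u = 0 → u = 0)
    (hp : HasPr (LZ Z') (U.map (ml F))) : PD (LZ Z) U := by
  obtain ⟨π, h1, h2, h3, h4, h5⟩ := hp
  refine ⟨cK ℂ E * π * cK ℂ F, (ml E).comp (ml F), ?_, ?_, ?_, ?_, ?_, ?_, ?_⟩
  · calc cK ℂ E * π * cK ℂ F * (cK ℂ E * π * cK ℂ F)
        = cK ℂ E * (π * (cK ℂ F * cK ℂ E) * π) * cK ℂ F := by simp only [Matrix.mul_assoc]
      _ = _ := by rw [hf.fe', Matrix.mul_one, h1]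
  · intro X hX
    obtain ⟨c1, c2, c3⟩ := hf.comp hX
    calc X * (cK ℂ E * π * cK ℂ F) = (X * cK ℂ E) * π * cK ℂ F := by simp only [Matrix.mul_assoc]
      _ = cK ℂ E * ((cK ℂ F * X * cK ℂ E) * π) * cK ℂ F := by
          rw [c2]
          simp only [Matrix.mul_assoc]
      _ = cK ℂ E * (π * (cK ℂ F * X * cK ℂ E)) * cK ℂ F := by rw [h2 _ c1]
      _ = cK ℂ E * π * (cK ℂ F * X * cK ℂ E * cK ℂ F) := by simp only [Matrix.mul_assoc]
      _ = cK ℂ E * π * (cK ℂ F * X) := by rw [← c3]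
      _ = _ := by simp only [Matrix.mul_assoc]
  · have h6 : (Set.range fun σ : ℂ ≃+* ℂ => (cK ℂ E * π * cK ℂ F).map σ) =
        (fun M => cK ℂ E * M * cK ℂ F) '' (Set.range fun σ : ℂ ≃+* ℂ => π.map σ) := by
      rw [← Set.range_comp]
      refine congrArg Set.range ?_
      funext σ
      exact map_three σ π
    rw [h6]
    exact h4.image _
  · intro σ i j
    rw [app_three σ, app_three cc, app_three cc, app_three σ]
    have h6 : (π.map σ).map cc = (π.map cc).map σ := by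
      ext k l
      exact h5 σ k l
    rw [h6]
  · intro X hX u _
    obtain ⟨c1, c2, c3⟩ := hf.comp hX
    change ml E (ml F (X *ᵥ u)) = X *ᵥ ml E (ml F u)
    rw [hf.act hX, ml_apply E, ml_apply E, mulVec_mulVec, mulVec_mulVec, ← c2]
  · intro u hu h6
    refine hi u hu ?_
    have h7 := congrArg (fun v => cK ℂ F *ᵥ v) h6
    change cK ℂ F *ᵥ (cK ℂ E *ᵥ (ml F u)) = cK ℂ F *ᵥ 0 at h7
    rwa [mulVec_mulVec, hf.fe', one_mulVec, mulVec_zero] at h7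
  · intro v
    rw [Submodule.map_comp]
    constructor
    · rintro ⟨w, hw, rfl⟩
      have h6 := (h3 w).1 hw
      rw [ml_apply, mulVec_mulVec]
      calc (cK ℂ E * π * cK ℂ F * cK ℂ E) *ᵥ w = (cK ℂ E * π) *ᵥ w := by
            rw [Matrix.mul_assoc _ (cK ℂ F), hf.fe', Matrix.mul_one]
        _ = cK ℂ E *ᵥ (π *ᵥ w) := by rw [mulVec_mulVec]
        _ = _ := by rw [h6]
    · intro hv
      refine ⟨π *ᵥ (cK ℂ F *ᵥ v), (h3 _).2 (by rw [mulVec_mulVec, h1]), ?_⟩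
      rw [ml_apply, mulVec_mulVec, mulVec_mulVec]
      exact hv

theorem jtransfer : JTransfer := by
  intro G a Z Z' E F hf h h' U hU hi
  refine ⟨fun hp => pd_of_hasPr hf hi hp, ?_, ?_, ?_⟩
  · rintro ⟨D, hD, N', hN', h3, h4, h5⟩
    obtain ⟨ε, hε, rfl⟩ : ∃ ε : ℂ, (ε = 1 ∨ ε = -1) ∧ D = ε • DZ Z' := by
      rcases hD with rfl | rfl
      · exact ⟨1, Or.inl rfl, (one_smul _ _).symm⟩
      · exact ⟨-1, Or.inr rfl, (neg_one_smul _ _).symm⟩
    obtain ⟨N, hN, h6, h7, rfl⟩ := hf.lift_rk h h' ε hε hN' h3 h4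
    refine ⟨ε • DZ Z, ?_, N, hN, h6, h7, ?_⟩
    · rcases hε with rfl | rfl
      · exact Or.inl (one_smul _ _)
      · exact Or.inr (neg_one_smul _ _)
    · rw [act_mem hf hN hi (hU.2.1 N hN)]
      exact h5
  · intro hns σ c
    obtain ⟨u', ⟨u, hu, rfl⟩, hu'⟩ := hns σ c
    refine ⟨u, hu, fun h3 => hu' ?_⟩
    have h4 := hf.act (DS_mem σ) u
    rw [h3, hf.fds, Matrix.mul_assoc, hf.fe', Matrix.mul_one] at h4
    rw [← h4, map_smul]
  · rintro ⟨b, ⟨u', ⟨u, hu, rfl⟩, v', ⟨v, hv, rfl⟩, huv⟩, hb⟩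
    refine ⟨b.compl₁₂ (ml F) (ml F), ⟨u, hu, v, hv, huv⟩, fun X hX u hu v hv => ?_⟩
    rw [LinearMap.compl₁₂_apply, LinearMap.compl₁₂_apply, hf.act hX, hf.act hX]
    exact hb _ (hf.comp hX).1 _ ⟨u, hu, rfl⟩ _ ⟨v, hv, rfl⟩

/-- The trace of an operator with two eigenspaces. -/
theorem tr_eig {V : Type*} [AddCommGroup V] [Module ℂ V] [FiniteDimensional ℂ V]
    {U P Q : Submodule ℂ V} (h1 : P ⊓ Q = ⊥) (h2 : P ⊔ Q = U) (f : End ℂ V)
    (hf : ∀ u ∈ U, f u ∈ U) (x y : ℂ) (hx : ∀ u ∈ P, f u = x • u) (hy : ∀ u ∈ Q, f u = y • u) :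
    LinearMap.trace ℂ U (f.restrict hf) = x * finrank ℂ P + y * finrank ℂ Q := by
  have hP : P ≤ U := h2 ▸ le_sup_left
  have hQ : Q ≤ U := h2 ▸ le_sup_right
  let e0 : (P × Q) →ₗ[ℂ] U := (Submodule.inclusion hP).coprod (Submodule.inclusion hQ)
  have he : Function.Bijective e0 := by
    constructor
    · rw [injective_iff_map_eq_zero]
      rintro ⟨p, q⟩ hpq
      have h3 : (p : V) + q = 0 := congrArg Subtype.val hpq
      have h4 : (p : V) = -q := eq_neg_of_add_eq_zero_left h3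
      have h5 : (p : V) ∈ P ⊓ Q := ⟨p.2, by rw [SetLike.mem_coe, h4]; exact Q.neg_mem q.2⟩
      rw [h1, Submodule.mem_bot] at h5
      rw [h5, eq_comm, neg_eq_zero] at h4
      exact Prod.ext (Subtype.ext h5) (Subtype.ext h4)
    · rintro ⟨u, hu⟩
      rw [← h2] at hu
      obtain ⟨p, hp, q, hq, rfl⟩ := Submodule.mem_sup.1 hu
      exact ⟨(⟨p, hp⟩, ⟨q, hq⟩), rfl⟩
  let e := LinearEquiv.ofBijective e0 he
  let g : End ℂ P := x • LinearMap.id
  let g' : End ℂ Q := y • LinearMap.id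
  have h3 : f.restrict hf = e.conj (LinearMap.prodMap g g') := by
    refine LinearMap.ext fun u => ?_
    obtain ⟨⟨p, q⟩, rfl⟩ := e.surjective u
    apply Subtype.ext
    rw [LinearEquiv.conj_apply_apply, LinearEquiv.symm_apply_apply]
    change f ((p : V) + q) = x • (p : V) + y • (q : V)
    rw [map_add, hx p p.2, hy q q.2]
  rw [h3, LinearMap.trace_conj', LinearMap.trace_prodMap']
  rw [map_smul, map_smul, LinearMap.trace_id, LinearMap.trace_id, smul_eq_mul, smul_eq_mul]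

theorem finrank_inj {V : Type*} [AddCommGroup V] [Module ℂ V] [FiniteDimensional ℂ V]
    {U : Submodule ℂ V} (T : V →ₗ[ℂ] V)
    (hi : ∀ u ∈ U, T u = 0 → u = 0) : finrank ℂ (U.map T) = finrank ℂ U := by
  have h1 := LinearMap.finrank_range_of_inj (f := T.domRestrict U) (by
    rw [injective_iff_map_eq_zero]
    intro u hu
    exact Subtype.ext (hi u u.2 hu))
  rw [← h1]
  have h2 : LinearMap.range (T.domRestrict U) = U.map T := by
    rw [LinearMap.range_domRestrict]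
  rw [h2]

theorem jtrace : JTrace := by
  intro G Z h U hU ε T h1 h2 h3 h4 h5 σ
  have hc : DS Z σ * ε = ε * DS Z σ := h2 _ (DS_mem σ)
  have hmem : ∀ v, mulVecLin (DS Z σ * ε) v ∈ U.map T := by
    intro v
    rw [mulVecLin_apply, hc, ← mulVec_mulVec]
    exact (h5 _).2 (by rw [mulVec_mulVec, h1])
  have e1 : Matrix.trace (DS Z σ * ε) = LinearMap.trace ℂ _ (mulVecLin (DS Z σ * ε)) := by
    rw [← Matrix.toLin'_apply', Matrix.trace_toLin'_eq]
  have e2 := LinearMap.trace_restrict_eq_of_forall_mem (U.map T) (mulVecLin (DS Z σ * ε)) hmem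
  have hU' : Stab (LZ Z) (cjS σ.symm U) := hU.2.1.cj gal_LZ σ.symm
  obtain ⟨s1, s2⟩ := split_eig h hU'
  have s3 := congrArg (cjS σ) s1
  have s4 := congrArg (cjS σ) s2
  rw [cjS_inf, cjS_bot] at s3
  rw [cjS_sup, cjS_symm'] at s4
  set P := cjS σ (cjS σ.symm U ⊓ eig Z 1) with hP
  set Q := cjS σ (cjS σ.symm U ⊓ eig Z (-1)) with hQ
  have hPU : P ≤ U := s4 ▸ le_sup_left
  have hQU : Q ≤ U := s4 ▸ le_sup_right
  have hD : ∀ u ∈ U, mulVecLin (DS Z σ * ε) (T u) = T (DS Z σ *ᵥ u) := by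
    intro u hu
    have h6 : ε *ᵥ T u = T u := (h5 _).1 ⟨u, hu, rfl⟩
    rw [mulVecLin_apply, ← mulVec_mulVec, h6, h3 _ (DS_mem σ) u hu]
  have hx : ∀ u ∈ P.map T, mulVecLin (DS Z σ * ε) u = (1 : ℂ) • u := by
    rintro _ ⟨p, hp, rfl⟩
    rw [hD p (hPU hp)]
    have h6 : p ∈ cjS σ (eig Z 1) := by
      rw [hP, cjS_inf] at hp
      exact hp.2
    rw [mem_cj_eig (map_one σ) h6, map_smul]
  have hy : ∀ u ∈ Q.map T, mulVecLin (DS Z σ * ε) u = (-1 : ℂ) • u := by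
    rintro _ ⟨p, hp, rfl⟩
    rw [hD p (hQU hp)]
    have h6 : p ∈ cjS σ (eig Z (-1)) := by
      rw [hQ, cjS_inf] at hp
      exact hp.2
    rw [mem_cj_eig (by rw [map_neg, map_one]) h6, map_smul]
  have s5 : P.map T ⊓ Q.map T = ⊥ := by
    rw [eq_bot_iff]
    rintro u ⟨hu, hu'⟩
    have h6 := hx u hu
    rw [hy u hu', one_smul, neg_one_smul] at h6
    rw [Submodule.mem_bot]
    exact self_eq_neg.1 h6.symm
  have s6 : P.map T ⊔ Q.map T = U.map T := by rw [← Submodule.map_sup, s4]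
  have e3 := tr_eig s5 s6 (mulVecLin (DS Z σ * ε)) (fun u _ => hmem u) 1 (-1) hx hy
  rw [e1, ← e2, e3, finrank_inj T (fun u hu => h4 u (hPU hu)),
    finrank_inj T (fun u hu => h4 u (hQU hu)), hP, hQ, finrank_cjS, finrank_cjS]
  change (1 : ℂ) * (pd Z (cjS σ.symm U) : ℂ) + (-1 : ℂ) * (qd Z (cjS σ.symm U) : ℂ) = _
  rw [tr]
  push_cast
  ring

end

end Pool.Agent.Y977.P
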